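import Pool.Agent.H860.UCT.Thick

/-!
# The UCT and crossed products by countable amenable groups: definitions
-/

set_option autoImplicit false
set_option linter.unusedSectionVars false

open CategoryTheory Limits Pretriangulated Category

namespace Pool.Agent.H860.CrossUCT

universe v u w

open scoped Classical in
/-- Amenable groups (the condition of Følner): for each finite subset `S` of `G` and `ε > 0` there is a
finite nonempty subset `F` such that for all `s` in `S` the set `s F` has at most `ε |F|` elements outside
of `F`. -/
def IsAmenable (G : Type) [Group G] : Prop :=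
  ∀ (S : Finset G) (ε : ℝ), 0 < ε → ∃ F : Finset G, F.Nonempty ∧
    ∀ s ∈ S, (((F.image fun g => s * g) \ F).card : ℝ) ≤ ε * F.card

/-- `G` has an element of order `p`. -/
def HasOrder (G : Type) [Group G] (p : ℕ) : Prop := ∃ g : G, orderOf g = p

section

variable {C : Type u} [Category.{v} C] [Preadditive C] [HasZeroObject C] [HasShift C ℤ]
  [∀ n : ℤ, (shiftFunctor C n).Additive] [Pretriangulated C]

/-- `X` is a cone of the morphism `f` (an element of `KK(A, B)`). -/
def IsCone {A B : C} (f : A ⟶ B) (X : C) : Prop :=
  ∃ (g : B ⟶ X) (h : X ⟶ A⟦(1 : ℤ)⟧), Triangle.mk f g h ∈ distTriang C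

end

/-- Here `C` is the category of the separable nuclear C*-algebras, with the groups `KK(A, B)` as the
morphisms; it is a triangulated category, and the shift is the suspension. -/
structure Theory (C : Type u) [Category.{v} C] where
  /-- the algebras which satisfy the UCT -/
  UCT : ObjectProperty C
  /-- the separable nuclear C*-algebras with an action of the group `G` -/
  Act : (G : Type) → [Group G] → Type w
  /-- the algebra on which the group acts -/
  alg : ∀ {G : Type} [Group G], Act G → C
  /-- the crossed product -/
  cross : ∀ {G : Type} [Group G], Act G → C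
  /-- the restriction of the action to a subgroup -/
  res : ∀ {G : Type} [Group G] (H : Subgroup G), Act G → Act H
  /-- the tensor product of `A` with the UHF algebra `M_(p^∞)` -/
  uhf : ℕ → C → C
  /-- the homomorphism `A → A ⊗ M_(p^∞)` -/
  unit : ∀ (p : ℕ) (A : C), A ⟶ uhf p A

namespace Theory

variable {C : Type u} [Category.{v} C]

/-- **Crossed products by `G` preserve the UCT**, for separable nuclear C*-algebras. -/
def Preserves (T : Theory.{v, u, w} C) (G : Type) [Group G] : Prop :=
  ∀ B : T.Act G, T.UCT (T.alg B) → T.UCT (T.cross B)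

/-- The crossed products of KK-contractible algebras, like `O_2`, by `G` satisfy the UCT. -/
def PreservesContractible (T : Theory.{v, u, w} C) (G : Type) [Group G] : Prop :=
  ∀ B : T.Act G, IsZero (T.alg B) → T.UCT (T.cross B)

variable [Preadditive C] [HasZeroObject C] [HasShift C ℤ]
  [∀ n : ℤ, (shiftFunctor C n).Additive] [Pretriangulated C]

/-- Duality: the generator `β` of the dual action on `B ⋊ G` of the characters of `G / N`, a cyclic group
of order `[G : N]`. The crossed product `X` of `B ⋊ G` by the automorphism `β` (an action of `ℤ`) is a cone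
of `1 - β` (Pimsner and Voiculescu). By the duality theorems of Takai and Green the crossed product of
`B ⋊ G` by the characters is Morita equivalent to `B ⋊ N`, and `X` is the mapping torus of an automorphism
`α` of it. -/
def HasDual (T : Theory.{v, u, w} C) {G : Type} [Group G] (N : Subgroup G) (B : T.Act G) : Prop :=
  ∃ (β : End (T.cross B)) (α : End (T.cross (T.res N B))) (X : C), β ^ N.index = 1 ∧
    IsCone (1 - β) X ∧ IsCone (1 - α) (X⟦(1 : ℤ)⟧)

/-- The separable nuclear C*-algebras on which `p` is invertible, that is, which are KK-equivalent to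
their tensor product with `M_(p^∞)`, satisfy the UCT. -/
def DivisibleUCT (T : Theory.{v, u, w} C) (p : ℕ) : Prop := ∀ A : C, IsIso (p • 𝟙 A) → T.UCT A

/-- The published facts which are used. -/
structure IsKnown (T : Theory.{v, u, w} C) : Prop where
  /-- Rosenberg and Schochet: suspensions, mapping cones -/
  triangulated : T.UCT.IsTriangulated
  /-- direct summands (in the category `KK`) -/
  retract : T.UCT.IsStableUnderRetracts
  /-- `A ⊗ M_(p^∞)` is the homotopy limit of the sequence `A → A → …` with the maps `p`: the number `p`
  is invertible on it, and it is `A` if `p` is invertible on `A` -/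
  uhf_inv : ∀ p : ℕ, p.Prime → ∀ A, IsIso (p • 𝟙 (T.uhf p A))
  unit_iso : ∀ p : ℕ, p.Prime → ∀ A, IsIso (p • 𝟙 A) → IsIso (T.unit p A)
  /-- `A ⊗ O_(p+1)`, which is a cone of `p` on `A` (up to a shift), is killed by `p`, as `O_(p+1)` is -/
  moore : ∀ p : ℕ, p.Prime → ∀ A M : C, IsCone (p • 𝟙 A) M → p • 𝟙 M = 0
  /-- the cone of `A → A ⊗ M_(p^∞)` is a limit of the cones of `p ^ k` on `A`; the UCT is preserved by
  limits (Rosenberg and Schochet) -/
  limit : ∀ p : ℕ, p.Prime → ∀ A, (∀ k : ℕ, T.UCT.trW ((p ^ k) • 𝟙 A)) → T.UCT.trW (T.unit p A)
  /-- the crossed product by the trivial group, and the algebra of a restricted action -/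
  one : ∀ (G : Type) [Group G] [Subsingleton G] (B : T.Act G), Nonempty (T.cross B ≅ T.alg B)
  alg_res : ∀ (G : Type) [Group G] (H : Subgroup G) (B : T.Act G),
    Nonempty (T.alg (T.res H B) ≅ T.alg B)
  /-- Pimsner and Voiculescu, Takai, Green -/
  dual : ∀ (G : Type) [Group G] [Finite G] (N : Subgroup G), N.Normal → N.index.Prime →
    ∀ B : T.Act G, T.HasDual N B
  /-- Izumi, Barlak and Szabó: for each `A` the algebra `A ⊗ M_(p^∞)` is, in the category `KK`, a direct
  summand of a crossed product `B ⋊ G` by the group `G` with `p` elements, where `B = A ⊗ O_2` is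
  KK-contractible -/
  model : ∀ (G : Type) [Group G], (Nat.card G).Prime → ∀ A : C, ∃ B : T.Act G, IsZero (T.alg B) ∧
    Nonempty (Retract (T.uhf (Nat.card G) A) (T.cross B))
  /-- Green: the crossed product of an induced algebra `B'`, which is, as an algebra, a direct sum of
  copies of `B` -/
  induced : ∀ (G : Type) [Group G], Countable G → IsAmenable G → ∀ H : Subgroup G, Finite H →
    ∀ B : T.Act H, ∃ B' : T.Act G, (IsZero (T.alg B) → IsZero (T.alg B')) ∧
      Nonempty (T.cross B' ≅ T.cross B)
  /-- the strong Baum–Connes conjecture for amenable groups (Higson and Kasparov; Meyer and Nest):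
  `B ⋊ G` is in the localizing subcategory generated by the `B ⋊ H`, `H` a finite subgroup of `G` -/
  baumConnes : ∀ (G : Type) [Group G], Countable G → IsAmenable G → ∀ B : T.Act G,
    (∀ H : Subgroup G, Finite H → T.UCT (T.cross (T.res H B))) → T.UCT (T.cross B)

end Theory

end Pool.Agent.H860.CrossUCT
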