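import Pool.Agent.H860.UCT.Defs

/-!
# The UCT and crossed products by countable amenable groups: proofs
-/

set_option autoImplicit false
set_option linter.unusedSectionVars false

open CategoryTheory Limits Pretriangulated Category

namespace Pool.Agent.H860.CrossUCT

universe v u w

/-! ### Groups -/

section groups

theorem amenable_of_finite (G : Type) [Group G] [Finite G] : IsAmenable G := by
  classical
  intro S ε hε
  have := Fintype.ofFinite G
  refine ⟨Finset.univ, Finset.univ_nonempty, fun s _ => ?_⟩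
  rw [Finset.sdiff_eq_empty_iff_subset.2 (Finset.subset_univ _)]
  rw [Finset.card_empty, Nat.cast_zero]
  positivity

theorem exists_order_of_dvd {G : Type} [Group G] {H : Subgroup G} [Finite H] {q : ℕ}
    (hq : q.Prime) (h : q ∣ Nat.card H) : HasOrder G q := by
  have : Fact q.Prime := ⟨hq⟩
  obtain ⟨x, hx⟩ := exists_prime_orderOf_dvd_card' q h
  exact ⟨x, by rw [← hx]; exact Subgroup.orderOf_coe x⟩

/-- a nontrivial `p`-group has a normal subgroup of index `p` -/
theorem exists_normal {G : Type} [Group G] [Finite G] {p : ℕ} (hp : p.Prime) {k : ℕ}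
    (hk : Nat.card G = p ^ (k + 1)) :
    ∃ N : Subgroup G, N.Normal ∧ N.index = p ∧ Nat.card N = p ^ k := by
  have : Fact p.Prime := ⟨hp⟩
  obtain ⟨N, hN⟩ := Sylow.exists_subgroup_card_pow_prime p (n := k) (G := G)
    (by rw [hk]; exact pow_dvd_pow p (Nat.le_succ k))
  have h1 : N.index = p := by
    have h2 := N.card_mul_index
    rw [hN, hk, pow_succ] at h2
    exact Nat.eq_of_mul_eq_mul_left (pow_pos hp.pos k) h2
  refine ⟨N, Subgroup.normal_of_index_eq_minFac_card ?_, h1, hN⟩
  rw [h1, hk, Nat.Prime.pow_minFac hp (Nat.succ_ne_zero k)]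

end groups

/-! ### The dual action -/

variable {C : Type u} [Category.{v} C] [Preadditive C] [HasZeroObject C] [HasShift C ℤ]
  [∀ n : ℤ, (shiftFunctor C n).Additive] [Pretriangulated C]

/-- `(1 - β) ^ p = p · s` if `β ^ p = 1` -/
theorem exists_pow_sub {R : Type*} [Ring R] {p : ℕ} (hp : p.Prime) {β : R} (hβ : β ^ p = 1) :
    ∃ s : R, (1 - β) ^ p = p * s := by
  obtain ⟨r, hr⟩ := (Commute.one_left (-β)).exists_add_pow_prime_eq hp
  rw [← sub_eq_add_neg, one_pow, mul_one, neg_pow, hβ, mul_one] at hr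
  rcases hp.eq_two_or_odd' with h2 | h2
  · subst h2
    refine ⟨1 - β * r, ?_⟩
    rw [hr]
    push_cast
    noncomm_ring
  · refine ⟨-β * r, ?_⟩
    rw [hr, h2.neg_one_pow, mul_assoc]
    noncomm_ring

theorem natCast_end (n : ℕ) (A : C) : ((n : End A) : A ⟶ A) = n • 𝟙 A := by
  rw [← nsmul_one]
  rfl

section thick

variable [IsTriangulated C] (P : ObjectProperty C) [P.IsTriangulated]
  [P.IsStableUnderRetracts]

theorem trW_pow {A : C} {f : End A} (hf : P.trW (f : A ⟶ A)) (n : ℕ) :
    P.trW ((f ^ n : End A) : A ⟶ A) := by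
  induction n with
  | zero =>
    rw [pow_zero]
    exact P.trW.id_mem A
  | succ n ih =>
    rw [pow_succ]
    exact P.trW.comp_mem _ _ hf ih

/-- If the cone of `1 - β` lies in `P`, and `β ^ p = 1`, then the cone of `p` lies in `P`. -/
theorem trW_prime {A : C} {p : ℕ} (hp : p.Prime) {β : End A} (hβ : β ^ p = 1)
    (h : P.trW ((1 - β : End A) : A ⟶ A)) : P.trW (p • 𝟙 A) := by
  obtain ⟨s, hs⟩ := exists_pow_sub hp hβ
  have h1 := trW_pow P h p
  rw [hs] at h1
  have h2 : P.trW ((s : A ⟶ A) ≫ (p • 𝟙 A)) := by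
    rw [← natCast_end]
    exact h1
  have h3 : P.trW ((p • 𝟙 A) ≫ (s : A ⟶ A)) := by
    rw [Preadditive.nsmul_comp, id_comp]
    rw [Preadditive.comp_nsmul, comp_id] at h2
    exact h2
  exact trW_of_comp P _ _ h3 h2

/-- If the cone of `p` on an object killed by `p ^ 2` lies in `P` then so does the object. -/
theorem prop_of_sq {M : C} {p : ℕ} (h0 : (p ^ 2) • 𝟙 M = 0) (h : P.trW (p • 𝟙 M)) : P M := by
  refine prop_of_zero P (Y := M) ?_
  have h1 := P.trW.comp_mem _ _ h h
  rwa [Preadditive.comp_nsmul, comp_id, smul_smul, ← sq, h0] at h1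

end thick

namespace Theory

variable [IsTriangulated C] {T : Theory.{v, u, w} C}

section known

variable (hT : T.IsKnown)

include hT

/-- **Crossed products by finite `p`-groups preserve every thick subcategory modulo `p`.** -/
theorem mod_p (P : ObjectProperty C) [P.IsTriangulated] [P.IsStableUnderRetracts] {p : ℕ}
    (hp : p.Prime) (k : ℕ) : ∀ (G : Type) [Group G] [Finite G],
    Nat.card G = p ^ k → ∀ B : T.Act G, P (T.alg B) → P.trW (p • 𝟙 (T.cross B)) := by
  induction k with
  | zero =>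
    intro G _ _ hG B hB
    have : Subsingleton G := by
      rw [pow_zero] at hG
      exact (Nat.card_eq_one_iff_unique.1 hG).1
    obtain ⟨e⟩ := hT.one G B
    exact modProp_of_prop P p (P.prop_of_iso e.symm hB)
  | succ k ih =>
    intro G _ _ hG B hB
    obtain ⟨N, hN1, hN2, hN3⟩ := exists_normal hp hG
    obtain ⟨β, α, X, hβ, ⟨g, h, hX⟩, ⟨g', h', hX'⟩⟩ := hT.dual G N hN1 (by rw [hN2]; exact hp) B
    obtain ⟨e⟩ := hT.alg_res G N B
    have h1 : modProp P p (T.cross (T.res N B)) :=
      ih N hN3 (T.res N B) (P.prop_of_iso e.symm hB)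
    have h2 : modProp P p (X⟦(1 : ℤ)⟧) :=
      (modProp P p).ext_of_isTriangulatedClosed₃ _ hX' h1 h1
    rw [(modProp P p).prop_shift_iff_of_isStableUnderShift] at h2
    rw [hN2] at hβ
    have h3 : (modProp P p).trW (p • 𝟙 (T.cross B)) :=
      trW_prime (modProp P p) hp hβ ⟨X, g, h, hX, h2⟩
    obtain ⟨M, a, b, hM, hM'⟩ := h3
    exact ⟨M, a, b, hM, prop_of_sq P (sq_smul_cone hM) hM'⟩

/-- If the cone of `p` on `A` and `A ⊗ M_(p^∞)` satisfy the UCT, then so does `A`. -/
theorem uct_of_uhf {p : ℕ} (hp : p.Prime) {A : C} (h : T.UCT.trW (p • 𝟙 A))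
    (h' : T.UCT (T.uhf p A)) : T.UCT A := by
  have := hT.triangulated
  have := hT.retract
  have h1 : ∀ k : ℕ, T.UCT.trW ((p ^ k) • 𝟙 A) := by
    intro k
    induction k with
    | zero =>
      rw [pow_zero, one_smul]
      exact T.UCT.trW.id_mem A
    | succ k ih =>
      have h2 := T.UCT.trW.comp_mem _ _ ih h
      rwa [Preadditive.comp_nsmul, comp_id, smul_smul, ← pow_succ'] at h2
  obtain ⟨Z, g, k, hZ, hZ'⟩ := hT.limit p hp A h1
  exact T.UCT.ext_of_isTriangulatedClosed₁ _ hZ h' hZ'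

theorem uhf_of_uct {p : ℕ} (hp : p.Prime) {A : C} (h : T.UCT A) : T.UCT (T.uhf p A) := by
  have := hT.triangulated
  have := hT.retract
  obtain ⟨Z, g, k, hZ, hZ'⟩ := hT.limit p hp A fun n => modProp_of_prop T.UCT _ h
  exact T.UCT.ext_of_isTriangulatedClosed₂ _ hZ h hZ'

end known

/-- on an algebra killed by `q` each prime number `p ≠ q` is invertible -/
theorem isIso_of_coprime {p q : ℕ} (hp : p.Prime) (hq : q.Prime) (hpq : p ≠ q) {A : C}
    (h : q • 𝟙 A = 0) : IsIso (p • 𝟙 A) := by
  have hco : IsCoprime (p : ℤ) (q : ℤ) := by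
    rw [Nat.isCoprime_iff_coprime]
    exact (Nat.coprime_primes hp hq).2 hpq
  obtain ⟨a, b, hab⟩ := hco
  have h1 : a • (p • 𝟙 A) = 𝟙 A := by
    have h2 : (b * (q : ℤ)) • 𝟙 A = 0 := by
      rw [mul_smul, natCast_zsmul, h, smul_zero]
    calc a • (p • 𝟙 A) = (a * (p : ℤ)) • 𝟙 A := by rw [mul_smul, natCast_zsmul]
      _ = (a * (p : ℤ)) • 𝟙 A + (b * (q : ℤ)) • 𝟙 A := by rw [h2, add_zero]
      _ = (a * (p : ℤ) + b * (q : ℤ)) • 𝟙 A := by rw [add_smul]
      _ = 𝟙 A := by rw [hab, one_smul]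
  refine ⟨a • 𝟙 A, ?_, ?_⟩
  · rw [Preadditive.comp_zsmul, comp_id]
    exact h1
  · rw [Preadditive.zsmul_comp, id_comp]
    exact h1

section known2

variable (hT : T.IsKnown)

include hT

/-- finite `p`-groups -/
theorem preserves_pgroup {p : ℕ} (hp : p.Prime) {G : Type} [Group G] [Finite G]
    (hG : IsPGroup p G) (h : T.DivisibleUCT p) : T.Preserves G := by
  have := hT.triangulated
  have := hT.retract
  have : Fact p.Prime := ⟨hp⟩
  obtain ⟨k, hk⟩ := IsPGroup.iff_card.1 hG
  intro B hB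
  exact uct_of_uhf hT hp (mod_p hT T.UCT hp k G hk B hB) (h _ (hT.uhf_inv p hp _))

/-- the cone of `p` on any algebra -/
theorem all_of {p : ℕ} (hp : p.Prime) (h1 : T.DivisibleUCT p)
    (h2 : ∀ A : C, p • 𝟙 A = 0 → T.UCT A) (A : C) : T.UCT A := by
  obtain ⟨M, g, k, hM⟩ := distinguished_cocone_triangle (p • 𝟙 A)
  exact uct_of_uhf hT hp ⟨M, g, k, hM, h2 M (hT.moore p hp A M ⟨g, k, hM⟩)⟩
    (h1 _ (hT.uhf_inv p hp A))

/-- two prime numbers -/
theorem all_of_two {p q : ℕ} (hp : p.Prime) (hq : q.Prime) (hpq : p ≠ q)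
    (h1 : T.DivisibleUCT p) (h2 : T.DivisibleUCT q) (A : C) : T.UCT A :=
  all_of hT hq h2 (fun A hA => h1 A (isIso_of_coprime hp hq hpq hA)) A

/-- if the crossed products of contractible algebras by `G` satisfy the UCT and `G` has an element of
order `p` -/
theorem divisible_of {p : ℕ} (hp : p.Prime) {G : Type} [Group G] (hc : Countable G)
    (ha : IsAmenable G) (ho : HasOrder G p) (h : T.PreservesContractible G) :
    T.DivisibleUCT p := by
  have := hT.triangulated
  have := hT.retract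
  intro A hA
  obtain ⟨g, hg⟩ := ho
  have hcard : Nat.card (Subgroup.zpowers g) = p := by rw [Nat.card_zpowers, hg]
  have hfin : Finite (Subgroup.zpowers g) := Nat.finite_of_card_ne_zero (by
    rw [hcard]; exact hp.ne_zero)
  obtain ⟨B, hB, ⟨r⟩⟩ := hT.model (Subgroup.zpowers g) (by rw [hcard]; exact hp) A
  rw [hcard] at r
  obtain ⟨B', hB', ⟨e⟩⟩ := hT.induced G hc ha (Subgroup.zpowers g) hfin B
  have h1 : T.UCT (T.cross B) := T.UCT.prop_of_iso e (h B' (hB' hB))
  have h2 : T.UCT (T.uhf p A) := T.UCT.prop_of_retract r h1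
  have h3 := hT.unit_iso p hp A hA
  exact T.UCT.prop_of_iso (asIso (T.unit p A)).symm h2

/-- finite groups -/
theorem preserves_finite {G : Type} [Group G] [Finite G]
    (h : ∀ p : ℕ, p.Prime → HasOrder G p → T.DivisibleUCT p) : T.Preserves G := by
  have := hT.triangulated
  have := hT.retract
  have hd : ∀ p : ℕ, p.Prime → p ∣ Nat.card G → T.DivisibleUCT p := by
    intro p hp hd
    have : Fact p.Prime := ⟨hp⟩
    obtain ⟨x, hx⟩ := exists_prime_orderOf_dvd_card' p hd
    exact h p hp ⟨x, hx⟩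
  rcases Nat.eq_zero_or_pos (Nat.card G - 1) with h0 | h0
  · have h1 : Nat.card G = 1 := by
      have := Nat.card_pos (α := G)
      omega
    have : Subsingleton G := (Nat.card_eq_one_iff_unique.1 h1).1
    intro B hB
    obtain ⟨e⟩ := hT.one G B
    exact T.UCT.prop_of_iso e.symm hB
  · obtain ⟨p, hp, hpd⟩ := Nat.exists_prime_and_dvd (n := Nat.card G) (by omega)
    by_cases hq : ∃ q : ℕ, q.Prime ∧ q ∣ Nat.card G ∧ q ≠ p
    · obtain ⟨q, hq, hqd, hqp⟩ := hq
      exact fun B _ => all_of_two hT hq hp hqp (hd q hq hqd) (hd p hp hpd) _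
    · refine preserves_pgroup hT hp ?_ (hd p hp hpd)
      have : Fact p.Prime := ⟨hp⟩
      rw [IsPGroup.iff_card]
      refine ⟨(Nat.card G).primeFactorsList.length, ?_⟩
      refine Nat.eq_prime_pow_of_unique_prime_dvd Nat.card_pos.ne' fun {q} hq' hd' => ?_
      by_contra hne
      exact hq ⟨q, hq', hd', hne⟩

/-- countable amenable groups -/
theorem preserves_amenable {G : Type} [Group G] (hc : Countable G) (ha : IsAmenable G)
    (h : ∀ p : ℕ, p.Prime → HasOrder G p → T.DivisibleUCT p) : T.Preserves G := by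
  have := hT.triangulated
  have := hT.retract
  intro B hB
  refine hT.baumConnes G hc ha B fun H hH => ?_
  obtain ⟨e⟩ := hT.alg_res G H B
  refine preserves_finite hT (G := H) (fun p hp ⟨x, hx⟩ => h p hp ⟨x, ?_⟩) _
    (T.UCT.prop_of_iso e.symm hB)
  rw [← hx]
  exact Subgroup.orderOf_coe x

theorem contractible_of_preserves {G : Type} [Group G] (h : T.Preserves G) :
    T.PreservesContractible G := by
  have := hT.triangulated
  have := hT.retract
  exact fun B hB => h B (T.UCT.prop_of_isZero hB)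

/-- the equivalence -/
theorem tfae {G : Type} [Group G] (hc : Countable G) (ha : IsAmenable G) :
    List.TFAE [T.Preserves G, T.PreservesContractible G,
      ∀ p : ℕ, p.Prime → HasOrder G p → T.DivisibleUCT p] := by
  tfae_have 1 → 2 := fun h => contractible_of_preserves hT h
  tfae_have 2 → 3 := fun h p hp ho => divisible_of hT hp hc ha ho h
  tfae_have 3 → 1 := fun h => preserves_amenable hT hc ha h
  tfae_finish

theorem preserves_iff {G : Type} [Group G] (hc : Countable G) (ha : IsAmenable G) :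
    T.Preserves G ↔ ∀ p : ℕ, p.Prime → HasOrder G p → T.DivisibleUCT p :=
  ⟨fun h _ hp ho => divisible_of hT hp hc ha ho (contractible_of_preserves hT h),
    fun h => preserves_amenable hT hc ha h⟩

end known2

end Theory

end Pool.Agent.H860.CrossUCT
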