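import Mathlib

/-!
# Thick subcategories: morphisms whose cone lies in the subcategory

Auxiliary results on the class `P.trW` of the morphisms whose cone lies in a thick triangulated
subcategory `P` of a triangulated category.
-/

set_option autoImplicit false
set_option linter.unusedSectionVars false

open CategoryTheory Limits Pretriangulated Category
open scoped ZeroObject

namespace Pool.Agent.H860.CrossUCT

universe v u

variable {C : Type u} [Category.{v} C] [Preadditive C] [HasZeroObject C] [HasShift C ℤ]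
  [∀ n : ℤ, (shiftFunctor C n).Additive] [Pretriangulated C]

section thick

variable (P : ObjectProperty C) [P.IsTriangulated] [P.IsStableUnderRetracts]

/-- If the cone of a zero morphism lies in `P`, so does its source. -/
theorem prop_of_zero {X Y : C} (h : P.trW (0 : X ⟶ Y)) : P X := by
  obtain ⟨Z, g, h, hT, hZ⟩ := h
  obtain ⟨s, hs⟩ := Triangle.coyoneda_exact₁ _ hT (𝟙 (X⟦(1 : ℤ)⟧)) (by
    change 𝟙 (X⟦(1 : ℤ)⟧) ≫ (0 : X ⟶ Y)⟦(1 : ℤ)⟧' = 0
    rw [Functor.map_zero, comp_zero])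
  have h1 : P (X⟦(1 : ℤ)⟧) := P.prop_of_retract ⟨s, h, hs.symm⟩ hZ
  rwa [P.prop_shift_iff_of_isStableUnderShift] at h1

variable [IsTriangulated C]

/-- An object lies in `P` if it is zero in the quotient by `P`. -/
theorem prop_of_isZero {X : C} (h : IsZero (P.trW.Q.obj X)) : P X := by
  have h1 : P.trW.Q.map (𝟙 X) = P.trW.Q.map 0 := h.eq_of_tgt _ _
  rw [MorphismProperty.map_eq_iff_postcomp P.trW.Q P.trW] at h1
  obtain ⟨Y, s, hs, h2⟩ := h1
  rw [id_comp, zero_comp] at h2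
  rw [h2] at hs
  exact prop_of_zero P hs

/-- A morphism is invertible in the quotient by `P` if and only if its cone lies in `P`. -/
theorem trW_iff_isIso {X Y : C} (f : X ⟶ Y) : P.trW f ↔ IsIso (P.trW.Q.map f) := by
  constructor
  · intro h
    exact Localization.inverts P.trW.Q P.trW f h
  · intro h
    obtain ⟨Z, g, k, hT⟩ := distinguished_cocone_triangle f
    refine ⟨Z, g, k, hT, prop_of_isZero P ?_⟩
    exact Triangle.isZero₃_of_isIso₁ _ (P.trW.Q.map_distinguished _ hT) h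

/-- If `f` and `g` commute and the cone of `f g` lies in `P` then so does the cone of `f`. -/
theorem trW_of_comp {X Y : C} (f : X ⟶ Y) (g : Y ⟶ X) (h1 : P.trW (f ≫ g)) (h2 : P.trW (g ≫ f)) :
    P.trW f := by
  rw [trW_iff_isIso, Functor.map_comp] at h1 h2
  rw [trW_iff_isIso]
  set F := P.trW.Q.map f
  set G := P.trW.Q.map g
  have e1 : F ≫ (G ≫ inv (F ≫ G)) = 𝟙 _ := by
    rw [← assoc]
    exact IsIso.hom_inv_id _
  have e2 : (inv (G ≫ F) ≫ G) ≫ F = 𝟙 _ := by
    rw [assoc]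
    exact IsIso.inv_hom_id _
  have e3 : inv (G ≫ F) ≫ G = G ≫ inv (F ≫ G) := by
    calc inv (G ≫ F) ≫ G = (inv (G ≫ F) ≫ G) ≫ (F ≫ (G ≫ inv (F ≫ G))) := by rw [e1, comp_id]
      _ = ((inv (G ≫ F) ≫ G) ≫ F) ≫ (G ≫ inv (F ≫ G)) := by simp only [assoc]
      _ = _ := by rw [e2, id_comp]
  exact ⟨G ≫ inv (F ≫ G), e1, by rw [← e3]; exact e2⟩

/-- two out of three -/
theorem trW_of_precomp {X Y Z : C} (f : X ⟶ Y) (g : Y ⟶ Z) (h1 : P.trW (f ≫ g)) (h2 : P.trW f) :
    P.trW g := by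
  rw [trW_iff_isIso, Functor.map_comp] at h1
  rw [trW_iff_isIso] at h2 ⊢
  exact IsIso.of_isIso_comp_left (P.trW.Q.map f) (P.trW.Q.map g)

end thick

/-! ### Multiplication by a number -/

/-- the cone of a multiplication is killed by the square of the number -/
theorem sq_smul_cone {n : ℕ} {A M : C} {g : A ⟶ M} {h : M ⟶ A⟦(1 : ℤ)⟧}
    (hT : Triangle.mk (n • 𝟙 A) g h ∈ distTriang C) : (n ^ 2) • 𝟙 M = 0 := by
  have e1 : (n • 𝟙 M) ≫ h = 0 := by
    have h1 : h ≫ (n • 𝟙 A)⟦(1 : ℤ)⟧' = 0 := comp_distTriang_mor_zero₃₁ _ hT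
    rw [Functor.map_nsmul, CategoryTheory.Functor.map_id, Preadditive.comp_nsmul, comp_id] at h1
    rw [Preadditive.nsmul_comp, id_comp]
    exact h1
  obtain ⟨s, hs⟩ : ∃ s : M ⟶ A, n • 𝟙 M = s ≫ g := Triangle.coyoneda_exact₃ _ hT (n • 𝟙 M) e1
  have e2 : (n • 𝟙 A) ≫ g = 0 := comp_distTriang_mor_zero₁₂ _ hT
  rw [Preadditive.nsmul_comp, id_comp] at e2
  calc (n ^ 2) • 𝟙 M = n • (n • 𝟙 M) := by rw [smul_smul, sq]
    _ = n • (s ≫ g) := by rw [← hs]
    _ = s ≫ (n • g) := by rw [Preadditive.comp_nsmul]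
    _ = 0 := by rw [e2, comp_zero]

/-- the objects `D` such that the cone of the multiplication by `n` on `D` lies in `P` -/
def modProp (P : ObjectProperty C) (n : ℕ) : ObjectProperty C := fun D => P.trW (n • 𝟙 D)

section mod

variable (P : ObjectProperty C) [P.IsTriangulated] [P.IsStableUnderRetracts] (n : ℕ)

theorem shift_smul (n : ℕ) (D : C) (a : ℤ) : (n • 𝟙 D)⟦a⟧' = n • 𝟙 (D⟦a⟧) := by
  rw [Functor.map_nsmul, CategoryTheory.Functor.map_id]

/-- multiplication by a number is an endomorphism of every triangle -/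
def smulTri (n : ℕ) (T : Triangle C) : T ⟶ T where
  hom₁ := n • 𝟙 _
  hom₂ := n • 𝟙 _
  hom₃ := n • 𝟙 _
  comm₁ := by rw [Preadditive.comp_nsmul, Preadditive.nsmul_comp, comp_id, id_comp]
  comm₂ := by rw [Preadditive.comp_nsmul, Preadditive.nsmul_comp, comp_id, id_comp]
  comm₃ := by
    rw [shift_smul, Preadditive.comp_nsmul, Preadditive.nsmul_comp, comp_id, id_comp]

theorem modProp_of_prop {D : C} (h : P D) : modProp P n D := by
  obtain ⟨Z, g, k, hT⟩ := distinguished_cocone_triangle (n • 𝟙 D)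
  exact ⟨Z, g, k, hT, P.ext_of_isTriangulatedClosed₃ _ hT h h⟩

variable [IsTriangulated C]

instance modProp_isTriangulated : (modProp P n).IsTriangulated where
  exists_zero := ⟨0, isZero_zero C, modProp_of_prop P n P.prop_zero⟩
  isStableUnderShiftBy a := ⟨fun D (h : P.trW (n • 𝟙 D)) => by
    change P.trW (n • 𝟙 (D⟦a⟧))
    rw [← shift_smul]
    exact h.shift a⟩
  ext₂' T hT h₁ h₃ := by
    refine ObjectProperty.le_isoClosure _ _ ?_
    change P.trW (n • 𝟙 _)
    change P.trW (n • 𝟙 _) at h₁ h₃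
    rw [trW_iff_isIso] at h₁ h₃ ⊢
    have hQ := P.trW.Q.map_distinguished _ hT
    exact isIso₂_of_isIso₁₃ (P.trW.Q.mapTriangle.map (smulTri n T)) hQ hQ h₁ h₃

instance modProp_retract : (modProp P n).IsStableUnderRetracts where
  of_retract {X Y} r h := by
    change P.trW (n • 𝟙 X)
    change P.trW (n • 𝟙 Y) at h
    rw [trW_iff_isIso] at h ⊢
    have e1 : (n • 𝟙 X) ≫ r.i = r.i ≫ (n • 𝟙 Y) := by
      rw [Preadditive.comp_nsmul, Preadditive.nsmul_comp, comp_id, id_comp]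
    have e2 : r.r ≫ (n • 𝟙 X) = (n • 𝟙 Y) ≫ r.r := by
      rw [Preadditive.comp_nsmul, Preadditive.nsmul_comp, comp_id, id_comp]
    have q1 := congrArg P.trW.Q.map e1
    have q2 := congrArg P.trW.Q.map e2
    have q3 := congrArg P.trW.Q.map r.retract
    rw [Functor.map_comp, Functor.map_comp] at q1 q2
    rw [Functor.map_comp, CategoryTheory.Functor.map_id] at q3
    refine ⟨P.trW.Q.map r.i ≫ inv (P.trW.Q.map (n • 𝟙 Y)) ≫ P.trW.Q.map r.r, ?_, ?_⟩
    · rw [← assoc, q1, assoc, IsIso.hom_inv_id_assoc, q3]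
    · rw [assoc, assoc, q2, IsIso.inv_hom_id_assoc, q3]

end mod

end Pool.Agent.H860.CrossUCT
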